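import Pool.Agent.H10.IEP.Targets
import Pool.Agent.H3.HD.Iter

/-!
# Module MA: intersections of few sets closed under limits of small cofinality
-/

set_option autoImplicit false

open Ordinal Cardinal Order Set
open scoped ZFSet

universe u

namespace Pool.Agent.H76.IEP

open _root_.HD Pool.Agent.H10.IEP

set_option linter.deprecated false in
theorem pf_MA : T_MA.{u} := by
  intro μ K hμ hK hK0 τ hτ A hA
  have hcof : K.ord.cof = K := hK.cof_ord
  have hρ : ℵ₀ < K.ord.cof := by rw [hcof]; exact hK0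
  have hτc : τ.card < K.ord.cof := by rw [hcof]; exact Cardinal.lt_ord.1 hτ
  constructor
  · intro a ha
    have hstep : ∀ b < K.ord, ∃ b' < K.ord, b < b' ∧
        ∀ i < τ, ∃ c ∈ A i, b < c ∧ c ≤ b' := by
      intro b hb
      have h2 : ∀ i < τ, ∃ c < K.ord, b < c ∧ c ∈ A i := fun i hi => (hA i hi).unb b hb
      choose! c hc using h2
      obtain ⟨s, hs, hs2⟩ := Pool.Agent.H3.HD.exists_bound hτc c (fun i hi => (hc i hi).1)
      have hlim : IsSuccLimit K.ord :=
        (Ordinal.one_lt_cof_iff).1 (Cardinal.one_lt_aleph0.trans hρ)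
      refine ⟨max s (b + 1), max_lt hs (hlim.add_one_lt hb),
        lt_of_lt_of_le (_root_.lt_add_one b) (le_max_right _ _), ?_⟩
      intro i hi
      exact ⟨c i, (hc i hi).2.2, (hc i hi).2.1, (hs2 i hi).trans (le_max_left _ _)⟩
    obtain ⟨x, hx, s, hs0, hsx, hsP, hsy⟩ :=
      Pool.Agent.H3.HD.exists_iter hρ _ hstep a ha
    refine ⟨x, hx, hs0 ▸ hsx 0, ?_⟩
    have hxs : x = ⨆ n, s n := by
      apply le_antisymm
      · by_contra h
        obtain ⟨n, hn⟩ := hsy _ (not_le.1 h)
        exact absurd (Ordinal.le_iSup s n) (not_le.2 hn)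
      · exact Ordinal.iSup_le fun n => (hsx n).le
    have hxc : x.cof ≤ ℵ₀ := by
      have h := Ordinal.cof_iSup_le_lift (f := s) (fun n => by rw [← hxs]; exact hsx n)
      rw [← hxs] at h
      simpa using h
    have hxo : x.cof.ord ≤ μ := by
      refine le_trans ?_ hμ
      rw [← Cardinal.ord_aleph0]
      exact Cardinal.ord_le_ord.2 hxc
    intro i hi
    refine (hA i hi).cls x hx ((zero_le (a := s 0)).trans_lt (hsx 0)) hxo ?_
    intro y hy
    obtain ⟨n, hn⟩ := hsy y hy
    obtain ⟨c, hc, h3, h4⟩ := hsP n i hi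
    exact ⟨c, h4.trans_lt (hsx _), hn.trans h3, hc⟩
  · intro x hx hx0 hxc h i hi
    refine (hA i hi).cls x hx hx0 hxc ?_
    intro y hy
    obtain ⟨z, hz, hyz, hzC⟩ := h y hy
    exact ⟨z, hz, hyz, hzC i hi⟩

end Pool.Agent.H76.IEP
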